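import Pool.Agent.P8H47.FP.Stm6

/-! # Project FQ, packages ORDA and LNO -/

set_option autoImplicit false

namespace Pool.Agent.P8H21.FQ

open Pool.Agent.Y920.EP (pwG)
open Pool.Agent.P8H47.EC2
open Pool.Agent.P8H47.FP
open Pool.Agent.P8H55.FP (qq pw_pos one_add_pos)

theorem orda : S_ORDA := by
  intro F _ e hiso x y hxy
  have h2 : (2 : F) ≠ 0 := by
    intro h
    have h1 := congrArg e.f h
    rw [map_zero, map_ofNat] at h1
    exact two_ne_zero h1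
  -- from the hypothesis
  have key : ∀ a : Fˣ, 0 < e.f ((x * a⁻¹ : Fˣ) : F) → ∀ N : ℕ, ∃ c : Fˣ,
      |e.f ((x * c ^ 2 : Fˣ) : F) - e.f a| * N ≤ |e.f a| := by
    intro a ha N
    obtain ⟨c, hc⟩ := hiso (x * a⁻¹) ha N
    refine ⟨c, ?_⟩
    have ha0 : e.f (a : F) ≠ 0 := by rw [Ne, map_eq_zero]; exact a.ne_zero
    have e1 : e.f ((x * c ^ 2 : Fˣ) : F) - e.f a = e.f a * (e.f ((x * a⁻¹ * c ^ 2 : Fˣ) : F) - 1) := by
      simp only [Units.val_mul, Units.val_pow_eq_pow_val, Units.val_inv_eq_inv_val, map_mul, map_pow, map_inv₀]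
      field_simp
    rw [e1, abs_mul, mul_assoc]
    calc |e.f (a : F)| * (|e.f ((x * a⁻¹ * c ^ 2 : Fˣ) : F) - 1| * N) ≤ |e.f (a : F)| * 1 :=
          mul_le_mul_of_nonneg_left hc (abs_nonneg _)
      _ = _ := mul_one _
  have hz : ∀ W : Fˣ, 1 - e.f (W : F) ≠ 0 → ∃ z : Fˣ, (z : F) = 1 - W ∧ e.f (z : F) = 1 - e.f W := by
    intro W hW
    have h1 : (1 : F) - W ≠ 0 := by
      intro h
      apply hW
      rw [← map_one e.f, ← map_sub, h, map_zero]
    exact ⟨Units.mk0 _ h1, rfl, by rw [Units.val_mk0, map_sub, map_one]⟩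
  have hy0 : e.f (y : F) ≠ 0 := by rw [Ne, map_eq_zero]; exact y.ne_zero
  have hx0 : e.f (x : F) ≠ 0 := by rw [Ne, map_eq_zero]; exact x.ne_zero
  have hA : ∀ a : Fˣ, |e.f (a : F)| ≤ 2 → |e.f (a : F)|⁻¹ ≤ 2 → (a : F) ∈ Arch e ∧ (a : F)⁻¹ ∈ Arch e := by
    intro a h1 h3
    refine ⟨⟨2, ?_⟩, ⟨2, ?_⟩⟩
    · push_cast
      exact h1
    · rw [map_inv₀, abs_inv]
      push_cast
      exact h3
  rcases lt_or_gt_of_ne hx0 with hx | hx
  · -- `x < 0`
    have hy : 0 < e.f (y : F) := hxy.resolve_left (not_lt.2 hx.le)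
    have ea : e.f ((-1 : Fˣ) : F) = -1 := by rw [Units.val_neg, Units.val_one, map_neg, map_one]
    refine ⟨-1, (hA _ ?_ ?_).1, (hA (-1) ?_ ?_).2, key (-1) ?_, ?_⟩
    · rw [ea]; norm_num
    · rw [ea]; norm_num
    · rw [ea]; norm_num
    · rw [ea]; norm_num
    · rw [Units.val_mul, map_mul, Units.val_inv_eq_inv_val, map_inv₀, ea]
      norm_num
      exact hx
    · intro W hW
      rw [ea, abs_neg, abs_one] at hW
      have h3 := abs_le.1 (show |e.f (W : F) - -1| ≤ 1 / 4 by linarith)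
      obtain ⟨z, hz1, hz2⟩ := hz W (by linarith [h3.1, h3.2])
      refine ⟨z, hz1, ?_⟩
      rw [Units.val_mul, map_mul, Units.val_inv_eq_inv_val, map_inv₀, hz2]
      exact mul_pos (inv_pos.2 hy) (by linarith [h3.1, h3.2])
  · rcases lt_or_gt_of_ne hy0 with hy | hy
    · -- `x > 0 > y`
      have ea : e.f ((Units.mk0 (2 : F) h2 : Fˣ) : F) = 2 := by rw [Units.val_mk0, map_ofNat]
      refine ⟨Units.mk0 2 h2, (hA _ ?_ ?_).1, (hA (Units.mk0 2 h2) ?_ ?_).2, key _ ?_, ?_⟩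
      · rw [ea]; norm_num
      · rw [ea]; norm_num
      · rw [ea]; norm_num
      · rw [ea]; norm_num
      · rw [Units.val_mul, map_mul, Units.val_inv_eq_inv_val, map_inv₀, ea]
        exact mul_pos hx (by norm_num)
      · intro W hW
        rw [ea, abs_two] at hW
        have h3 := abs_le.1 (show |e.f (W : F) - 2| ≤ 1 / 2 by linarith)
        obtain ⟨z, hz1, hz2⟩ := hz W (by linarith [h3.1, h3.2])
        refine ⟨z, hz1, ?_⟩
        rw [Units.val_mul, map_mul, Units.val_inv_eq_inv_val, map_inv₀, hz2]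
        exact mul_pos_of_neg_of_neg (inv_lt_zero.2 hy) (by linarith [h3.1, h3.2])
    · -- `x, y > 0`
      have ea : e.f (((Units.mk0 (2 : F) h2)⁻¹ : Fˣ) : F) = 1 / 2 := by
        rw [Units.val_inv_eq_inv_val, Units.val_mk0, map_inv₀, map_ofNat, one_div]
      refine ⟨(Units.mk0 2 h2)⁻¹, (hA _ ?_ ?_).1, (hA (Units.mk0 2 h2)⁻¹ ?_ ?_).2, key _ ?_, ?_⟩
      · rw [ea, abs_of_pos (by norm_num)]; norm_num
      · rw [ea, abs_of_pos (by norm_num)]; norm_num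
      · rw [ea, abs_of_pos (by norm_num)]; norm_num
      · rw [ea, abs_of_pos (by norm_num)]; norm_num
      · rw [Units.val_mul, map_mul, Units.val_inv_eq_inv_val _⁻¹, map_inv₀, ea]
        exact mul_pos hx (by norm_num)
      · intro W hW
        rw [ea, abs_of_pos (by norm_num : (0 : e.R) < 1 / 2)] at hW
        have h3 := abs_le.1 (show |e.f (W : F) - 1 / 2| ≤ 1 / 8 by linarith)
        obtain ⟨z, hz1, hz2⟩ := hz W (by linarith [h3.1, h3.2])
        refine ⟨z, hz1, ?_⟩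
        rw [Units.val_mul, map_mul, Units.val_inv_eq_inv_val, map_inv₀, hz2]
        exact mul_pos (inv_pos.2 hy) (by linarith [h3.1, h3.2])

theorem lno : S_LNO := by
  intro c3o solv loca orda' F _ h2 ι κ _ _ _ T O J e S h2O x y hT hP
  classical
  have hb0 : ∀ j : κ, (fun _ : κ => (1 : ℚ)) j ≠ 0 := fun _ => one_ne_zero
  obtain ⟨w, hw, -⟩ := c3o F ι κ T O J e S (fun _ => y * (Units.mk0 (2 : F) h2)⁻¹) (fun _ => 1) hb0 1
  set v : Fˣ := Units.mk0 (2 : F) h2 * w with hv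
  have hvF : (v : F) = 2 * w := by rw [hv, Units.val_mul, Units.val_mk0]
  have hyv : ∀ i, y⁻¹ * v ∈ T i := by
    intro i
    have h1 := (hw i).1
    have e1 : (y * (Units.mk0 (2 : F) h2)⁻¹)⁻¹ * w = y⁻¹ * v := by
      rw [hv, mul_inv, inv_inv, mul_assoc]
    rw [e1] at h1
    exact h1
  have hwm : ∀ i, (w : F) ∈ O i ∧ (w : F)⁻¹ ∉ O i ∧ (w : F) ∉ J i := fun i => (hw i).2
  -- the targets
  have hl := fun i => loca F h2 (T i) (O i) (J i) (S.dat i) (h2O i) w x y v (hwm i).1 (hwm i).2.1 (hwm i).2.2 hvF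
    (hyv i) (hT i)
  have ho := fun j => orda' F (e j) (S.iso j) x y (hP j)
  choose a c hac hcl hW using hl
  choose a' ha1 ha2 hN hW' using ho
  set A : ι ⊕ κ → Fˣ := Sum.elim a a' with hA
  have hm : ∀ (i : ι) (r : ι ⊕ κ), Sum.inl i ≠ r → ∀ u : Fˣ, (u : F) ∈ O i → (u : F)⁻¹ ∉ O i → (u : F) ∉ J i →
      u ∈ UU (Rg (qq O e (Sum.inl i : ι ⊕ κ))) (Rg (qq O e r)) := by
    intro i r hr u h1 h3 h4
    rcases r with i' | j
    · exact sep (S.dat i) (S.dat i').pw (S.dat i').one_add (S.ne i i' fun h => hr (by rw [h])) h1 h3 h4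
    · exact sep (S.dat i) (pw_pos (e j)) (one_add_pos (e j)) (S.neO i j) h1 h3 h4
  have hU : ∀ q r, q ≠ r → A q ∈ UU (Rg (qq O e q)) (Rg (qq O e r)) := by
    intro q r hqr
    rcases q with i | j
    · change a i ∈ _
      rcases hcl i with h | h | h
      · exact UU_left h.1 (by rw [Units.val_inv_eq_inv_val]; exact h.2)
      · exact hm i r hqr _ h.1 h.2.1 h.2.2
      · have h5 : (a i)⁻¹ ∈ UU (Rg (qq O e (Sum.inl i : ι ⊕ κ))) (Rg (qq O e r)) := by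
          refine hm i r hqr _ ?_ ?_ ?_
          · rw [Units.val_inv_eq_inv_val]; exact h.1
          · rw [Units.val_inv_eq_inv_val, inv_inv]; exact h.2.1
          · rw [Units.val_inv_eq_inv_val]; exact h.2.2
        have h6 := inv_mem h5
        rwa [inv_inv] at h6
    · change a' j ∈ _
      exact UU_left (ha1 j) (by rw [Units.val_inv_eq_inv_val]; exact ha2 j)
  have hloc : ∀ (q : ι ⊕ κ) (N : ℕ), ∃ c : Fˣ, Near N (qq O e q) ((w * w : Fˣ) : F) (A q : F)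
      ((x * c ^ 2 : Fˣ) : F) := by
    intro q N
    rcases q with i | j
    · refine ⟨c i, 0, (O i).zero_mem, ?_⟩
      change ((x * c i ^ 2 : Fˣ) : F) = (a i : F) * (1 + _ * 0)
      rw [← hac i]
      ring
    · obtain ⟨c', hc'⟩ := hN j N
      exact ⟨c', hc'⟩
  obtain ⟨c₀, hc₀⟩ := solv F ι κ T O J e S w hwm x A hU hloc 4
  have hzi : ∀ i, ∃ z : Fˣ, (z : F) = 1 - ((x * c₀ ^ 2 : Fˣ) : F) ∧ y⁻¹ * z ∈ T i := by
    intro i
    obtain ⟨b, hb, hb'⟩ := hc₀ (Sum.inl i)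
    refine hW i (x * c₀ ^ 2) ⟨b, hb, ?_⟩
    rw [hb', Units.val_mul]
    rfl
  have hzj : ∀ j, ∃ z : Fˣ, (z : F) = 1 - ((x * c₀ ^ 2 : Fˣ) : F) ∧ 0 < (e j).f ((y⁻¹ * z : Fˣ) : F) := by
    intro j
    have h3 : |(e j).f ((x * c₀ ^ 2 : Fˣ) : F) - (e j).f (a' j : F)| * ((4 : ℕ) : (e j).R) ≤ |(e j).f (a' j : F)| :=
      hc₀ (Sum.inr j)
    refine hW' j (x * c₀ ^ 2) ?_
    push_cast at h3
    exact h3
  have hne : ∃ z : Fˣ, (z : F) = 1 - ((x * c₀ ^ 2 : Fˣ) : F) := by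
    obtain ⟨q⟩ := (inferInstance : Nonempty (ι ⊕ κ))
    rcases q with i | j
    · obtain ⟨z, hz, -⟩ := hzi i
      exact ⟨z, hz⟩
    · obtain ⟨z, hz, -⟩ := hzj j
      exact ⟨z, hz⟩
  obtain ⟨z, hz⟩ := hne
  refine ⟨c₀, z, ?_, fun i => ?_, fun j => ?_⟩
  · rw [hz, Units.val_mul, Units.val_pow_eq_pow_val]
  · obtain ⟨z', hz', h3⟩ := hzi i
    have : z' = z := Units.ext (hz'.trans hz.symm)
    rwa [this] at h3
  · obtain ⟨z', hz', h3⟩ := hzj j
    have : z' = z := Units.ext (hz'.trans hz.symm)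
    rwa [this] at h3

end Pool.Agent.P8H21.FQ
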